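import Pool.Agent.Q72.SP.Model

set_option autoImplicit false

open Filter Topology Set Complex Metric

namespace Pool.Agent.Q72.SP

/-- The regular part of the curve `phi f z = phi g w`, without the points over `T`. -/
def Gam (f g : ℂ → ℂ) (m : ℂ) (T : Set (ℂ × ℂ)) : Set (ℂ × ℂ) :=
  {p | p.1 ≠ 0 ∧ p.2 ≠ 0 ∧ f p.1 ≠ 0 ∧ g p.2 ≠ 0 ∧ phi f p.1 = phi g p.2 ∧ phi f p.1 ≠ 0 ∧
    phi f p.1 ≠ m ∧ (p.1 * p.2, phi f p.1) ∉ T}

/-- `f` is not degenerate -/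
structure Nondeg (f : ℂ → ℂ) : Prop where
  diff : Differentiable ℂ f
  ne_zero : ¬ ∀ z, f z = 0
  ne_const : ∀ a : ℂ, ¬ ∀ z, z * deriv f z = a * f z

theorem branch {f g : ℂ → ℂ} (hf : Nondeg f) (hg : Nondeg g) {m : ℂ} {T : Set (ℂ × ℂ)}
    (hT : T.Countable) {S0 : Set (ℂ × ℂ)} (hS0 : S0 ⊆ Gam f g m T)
    (hP : ∀ (γ : ℂ → ℂ × ℂ) (A : Set ℂ), IsPreconnected A → ContinuousOn γ A →
      (∀ τ ∈ A, γ τ ∈ Gam f g m T) → ∀ τ1 ∈ A, γ τ1 ∈ S0 → ∀ τ ∈ A, γ τ ∈ S0)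
    {z1 w1 : ℂ} (hz1 : z1 ≠ 0) (hw1 : w1 ≠ 0) (hcl : (z1, w1) ∈ closure S0) :
    ∃ (ρ : ℝ) (z w : ℂ → ℂ), 0 < ρ ∧ DifferentiableOn ℂ z (ball 0 ρ) ∧
      DifferentiableOn ℂ w (ball 0 ρ) ∧ z 0 = z1 ∧ w 0 = w1 ∧
      (∀ τ ∈ ball (0:ℂ) ρ, (z τ, w τ) ∈ closure S0) ∧
      ∀ ρ' : ℝ, 0 < ρ' → ∀ᶠ y in 𝓝 z1, ∃ τ ∈ ball (0:ℂ) ρ', z τ = y := by
  have hfr : ∃ᶠ p : ℂ × ℂ in 𝓝 (z1, w1), p ∈ S0 := mem_closure_iff_frequently.1 hcl
  obtain ⟨α, β, μ, hμ, hα, hα0, hαn, hβ, hβ0, hβn, hμb, hzm, hwm, hpt⟩ :=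
    model hf.diff hg.diff hf.ne_zero hg.ne_zero hf.ne_const hg.ne_const hz1 hw1
      (hfr.mono fun p hp => by
        have := hS0 hp
        exact ⟨this.2.2.1, this.2.2.2.1, this.2.2.2.2.1⟩)
  obtain ⟨k, l, Z, W, ζ, hk, hl, hZ, hZ0, hW, hW0, hζZ, hZζ, hζ, hζ0, hαZ, hβW, hpx⟩ :=
    puiseux hα hα0 hαn hβ hβ0 hβn
  -- tendsto to punctured neighbourhoods
  have tZ : Tendsto Z (𝓝[≠] 0) (𝓝[≠] z1) := by
    rw [tendsto_nhdsWithin_iff]
    constructor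
    · have := hZ.continuousAt.tendsto
      rw [hZ0] at this
      exact this.mono_left nhdsWithin_le_nhds
    · filter_upwards [hαZ.filter_mono nhdsWithin_le_nhds, self_mem_nhdsWithin] with t ht ht2 hcon
      rw [mem_singleton_iff] at hcon
      rw [hcon, hα0] at ht
      exact ht2 (pow_eq_zero_iff hl.ne' |>.1 ht.symm)
  have tW : Tendsto W (𝓝[≠] 0) (𝓝[≠] w1) := by
    rw [tendsto_nhdsWithin_iff]
    constructor
    · have := hW.continuousAt.tendsto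
      rw [hW0] at this
      exact this.mono_left nhdsWithin_le_nhds
    · filter_upwards [hβW.filter_mono nhdsWithin_le_nhds, self_mem_nhdsWithin] with t ht ht2 hcon
      rw [mem_singleton_iff] at hcon
      rw [hcon, hβ0] at ht
      exact ht2 (pow_eq_zero_iff hk.ne' |>.1 ht.symm)
  have tpow : Tendsto (fun t : ℂ => t ^ l) (𝓝[≠] 0) (𝓝[≠] 0) := by
    rw [tendsto_nhdsWithin_iff]
    constructor
    · have : Tendsto (fun t : ℂ => t ^ l) (𝓝 0) (𝓝 (0 ^ l)) := (continuous_pow l).tendsto 0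
      rw [zero_pow hl.ne'] at this
      exact this.mono_left nhdsWithin_le_nhds
    · filter_upwards [self_mem_nhdsWithin] with t ht
      exact pow_ne_zero _ ht
  have c0 : ∀ᶠ t in 𝓝 (0:ℂ), DifferentiableAt ℂ Z t :=
    hZ.eventually_analyticAt.mono fun t ht => ht.differentiableAt
  have c1 : ∀ᶠ t in 𝓝[≠] (0:ℂ), Z t ≠ 0 ∧ f (Z t) ≠ 0 ∧ phi f (Z t) = μ (t ^ l) ∧ μ (t ^ l) ≠ 0 ∧
      μ (t ^ l) ≠ m := by
    have a1 : ∀ᶠ t in 𝓝[≠] (0:ℂ), Z t ≠ 0 := by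
      have : ∀ᶠ t in 𝓝 (0:ℂ), Z t ≠ 0 := hZ.continuousAt.eventually_ne (by rw [hZ0]; exact hz1)
      exact this.filter_mono nhdsWithin_le_nhds
    filter_upwards [a1, tZ.eventually hzm, hαZ.filter_mono nhdsWithin_le_nhds,
      tpow.eventually (hμb 0), tpow.eventually (hμb m)] with t h1 h2 h3 h4 h5
    refine ⟨h1, h2.1, ?_, h4, h5⟩
    rw [h2.2, h3]
  have d0 : ∀ᶠ t in 𝓝 (0:ℂ), DifferentiableAt ℂ W t :=
    hW.eventually_analyticAt.mono fun t ht => ht.differentiableAt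
  have d1 : ∀ᶠ t in 𝓝[≠] (0:ℂ), W t ≠ 0 ∧ g (W t) ≠ 0 ∧ phi g (W t) = μ (t ^ k) := by
    have a1 : ∀ᶠ t in 𝓝[≠] (0:ℂ), W t ≠ 0 := by
      have : ∀ᶠ t in 𝓝 (0:ℂ), W t ≠ 0 := hW.continuousAt.eventually_ne (by rw [hW0]; exact hw1)
      exact this.filter_mono nhdsWithin_le_nhds
    filter_upwards [a1, tW.eventually hwm, hβW.filter_mono nhdsWithin_le_nhds] with t h1 h2 h3
    refine ⟨h1, h2.1, ?_⟩
    rw [h2.2, h3]
  obtain ⟨rz, hrz, hcz⟩ := Metric.eventually_nhds_iff.1 (c0.and (eventually_nhdsWithin_iff.1 c1))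
  obtain ⟨rw, hrw, hcw⟩ := Metric.eventually_nhds_iff.1 (d0.and (eventually_nhdsWithin_iff.1 d1))
  set ρ : ℝ := min 1 (min rz rw) with hρ
  have hρ0 : 0 < ρ := by positivity
  have hρ1 : ρ ≤ 1 := min_le_left _ _
  have hρz : ρ ≤ rz := (min_le_right _ _).trans (min_le_left _ _)
  have hρw : ρ ≤ rw := (min_le_right _ _).trans (min_le_right _ _)
  obtain ⟨p, hpS, hpx2, hpt2⟩ := (hfr.and_eventually ((hpx ρ hρ0).and hpt)).exists
  have hpG := hS0 hpS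
  obtain ⟨ε, τ1, hε, hτ1, hp1, hp2⟩ := hpx2 (hpt2 hpG.2.2.1 hpG.2.2.2.1 hpG.2.2.2.2.1)
  have hεn : ‖ε‖ = 1 := by
    have h1 : ‖ε‖ ^ k = 1 := by rw [← norm_pow, hε, norm_one]
    exact (pow_eq_one_iff_of_nonneg (norm_nonneg _) hk.ne').1 h1
  have hε0 : ε ≠ 0 := by rw [← norm_ne_zero_iff, hεn]; exact one_ne_zero
  have hsz : ∀ τ ∈ ball (0:ℂ) ρ, dist (τ ^ k) 0 < rz := by
    intro τ hτ
    rw [mem_ball_zero_iff] at hτ
    rw [dist_zero_right, norm_pow]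
    exact ((pow_le_of_le_one (norm_nonneg _) (by linarith) hk.ne').trans_lt hτ).trans_le hρz
  have hsw : ∀ τ ∈ ball (0:ℂ) ρ, dist (ε * τ ^ l) 0 < rw := by
    intro τ hτ
    rw [mem_ball_zero_iff] at hτ
    rw [dist_zero_right, norm_mul, hεn, one_mul, norm_pow]
    exact ((pow_le_of_le_one (norm_nonneg _) (by linarith) hl.ne').trans_lt hτ).trans_le hρw
  set zz : ℂ → ℂ := fun τ => Z (τ ^ k) with hzz
  set ww : ℂ → ℂ := fun τ => W (ε * τ ^ l) with hww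
  have hdz : DifferentiableOn ℂ zz (ball 0 ρ) := by
    intro τ hτ
    exact ((hcz (hsz τ hτ)).1.comp τ (differentiableAt_pow k)).differentiableWithinAt
  have hdw : DifferentiableOn ℂ ww (ball 0 ρ) := by
    intro τ hτ
    exact ((hcw (hsw τ hτ)).1.comp τ ((differentiableAt_pow l).const_mul ε)).differentiableWithinAt
  have hz0 : zz 0 = z1 := by simp only [hzz]; rw [zero_pow hk.ne', hZ0]
  have hw0 : ww 0 = w1 := by simp only [hww]; rw [zero_pow hl.ne', mul_zero, hW0]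
  set R : Set ℂ := {τ | τ ∈ ball (0:ℂ) ρ ∧ (zz τ, ww τ) ∉ Gam f g m T} with hR
  have hRc : R.Countable := by
    have h1 : R ⊆ {0} ∪ ⋃ t ∈ T, {τ : ℂ | μ (τ ^ (k * l)) = t.2} := by
      intro τ hτ
      rcases eq_or_ne τ 0 with h0 | h0
      · left; exact h0
      · right
        obtain ⟨hτb, hτG⟩ := hτ
        obtain ⟨hz2, hz3, hz4, hz5, hz6⟩ := (hcz (hsz τ hτb)).2 (pow_ne_zero _ h0)
        obtain ⟨hw2, hw3, hw4⟩ := (hcw (hsw τ hτb)).2 (mul_ne_zero hε0 (pow_ne_zero _ h0))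
        have e1 : (ε * τ ^ l) ^ k = (τ ^ k) ^ l := by
          rw [mul_pow, hε, one_mul]; ring
        rw [e1] at hw4
        have : (zz τ * ww τ, phi f (zz τ)) ∈ T := by
          by_contra hcon
          apply hτG
          refine ⟨hz2, hw2, hz3, hw3, ?_, ?_, ?_, hcon⟩
          · show phi f (Z (τ ^ k)) = phi g (W (ε * τ ^ l))
            rw [hz4, hw4]
          · show phi f (Z (τ ^ k)) ≠ 0
            rw [hz4]; exact hz5
          · show phi f (Z (τ ^ k)) ≠ m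
            rw [hz4]; exact hz6
        simp only [mem_iUnion]
        refine ⟨_, this, ?_⟩
        show μ (τ ^ (k * l)) = phi f (Z (τ ^ k))
        rw [hz4, pow_mul]
    refine Countable.mono h1 ((countable_singleton 0).union (hT.biUnion ?_))
    intro t _
    by_cases hex : ∃ τ0 : ℂ, μ (τ0 ^ (k * l)) = t.2
    · obtain ⟨τ0, h0⟩ := hex
      have h2 : {τ : ℂ | μ (τ ^ (k * l)) = t.2} ⊆ {τ | τ ^ (k * l) = τ0 ^ (k * l)} := by
        intro τ hτ
        exact hμ ((show μ (τ ^ (k * l)) = t.2 from hτ).trans h0.symm)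
      apply Set.Finite.countable
      refine Set.Finite.subset ?_ h2
      have hpos : 0 < k * l := Nat.mul_pos hk hl
      have h3 : {τ : ℂ | τ ^ (k * l) = τ0 ^ (k * l)} ⊆
          ↑(Polynomial.nthRoots (k * l) (τ0 ^ (k * l))).toFinset := by
        intro τ hτ
        simp only [Finset.mem_coe, Multiset.mem_toFinset]
        rw [Polynomial.mem_nthRoots hpos]
        exact hτ
      exact (Finset.finite_toSet _).subset h3
    · have : {τ : ℂ | μ (τ ^ (k * l)) = t.2} = ∅ := by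
        rw [eq_empty_iff_forall_notMem]
        intro τ hτ
        exact hex ⟨τ, hτ⟩
      rw [this]; exact countable_empty
  set ψ := OpenPartialHomeomorph.univBall (0:ℂ) ρ with hψ
  have hψc : Continuous ψ := OpenPartialHomeomorph.continuous_univBall 0 ρ
  have hψb : ∀ y, ψ y ∈ ball (0:ℂ) ρ := by
    intro y
    have := ψ.map_source (x := y) (by rw [hψ, OpenPartialHomeomorph.univBall_source]; trivial)
    rwa [hψ, OpenPartialHomeomorph.univBall_target _ hρ0] at this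
  have hψi : Function.Injective ψ := by
    intro a b hab
    apply ψ.injOn _ _ hab
    · rw [hψ, OpenPartialHomeomorph.univBall_source]; trivial
    · rw [hψ, OpenPartialHomeomorph.univBall_source]; trivial
  have hψs : ∀ τ ∈ ball (0:ℂ) ρ, ψ (ψ.symm τ) = τ := by
    intro τ hτ
    apply ψ.right_inv
    rw [hψ, OpenPartialHomeomorph.univBall_target _ hρ0]; exact hτ
  have hγc : Continuous (fun y => ((zz (ψ y), ww (ψ y)) : ℂ × ℂ)) := by
    have h1 : Continuous (fun y => zz (ψ y)) :=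
      (hdz.continuousOn.comp_continuous hψc hψb)
    have h2 : Continuous (fun y => ww (ψ y)) :=
      (hdw.continuousOn.comp_continuous hψc hψb)
    exact h1.prodMk h2
  have hpre : (ψ ⁻¹' R).Countable := hRc.preimage_of_injOn hψi.injOn
  have hrank : 1 < Module.rank ℝ ℂ := by
    rw [Complex.rank_real_complex]; norm_num
  have hconn : IsPreconnected (ψ ⁻¹' R)ᶜ :=
    (hpre.isConnected_compl_of_one_lt_rank hrank).isPreconnected
  have hin : ∀ y ∈ (ψ ⁻¹' R)ᶜ, ((zz (ψ y), ww (ψ y)) : ℂ × ℂ) ∈ Gam f g m T := by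
    intro y hy
    by_contra hcon
    exact hy ⟨hψb y, hcon⟩
  have hτ1b : τ1 ∈ ball (0:ℂ) ρ := by rw [mem_ball_zero_iff]; exact hτ1
  have hpeq : p = (zz τ1, ww τ1) := Prod.ext hp1 hp2
  have hall : ∀ y ∈ (ψ ⁻¹' R)ᶜ, ((zz (ψ y), ww (ψ y)) : ℂ × ℂ) ∈ S0 := by
    apply hP (fun y => (zz (ψ y), ww (ψ y))) _ hconn hγc.continuousOn hin (ψ.symm τ1)
    · intro hcon
      rw [mem_preimage, hψs τ1 hτ1b] at hcon
      apply hcon.2
      rw [← hpeq]; exact hpG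
    · show (zz (ψ (ψ.symm τ1)), ww (ψ (ψ.symm τ1))) ∈ S0
      rw [hψs τ1 hτ1b, ← hpeq]; exact hpS
  have hdense : Dense (ψ ⁻¹' R)ᶜ := hpre.dense_compl ℝ
  refine ⟨ρ, zz, ww, hρ0, hdz, hdw, hz0, hw0, ?_, ?_⟩
  · intro τ hτ
    have h1 : ψ.symm τ ∈ closure (ψ ⁻¹' R)ᶜ := hdense _
    have h2 := map_mem_closure hγc h1 hall
    simp only [hψs τ hτ] at h2
    exact h2
  · intro ρ' hρ'
    have e1 : ∀ᶠ y in 𝓝 z1, ‖ζ y‖ < ρ' ^ k := by
      have : Tendsto (fun z => ‖ζ z‖) (𝓝 z1) (𝓝 0) := by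
        have := hζ.continuousAt.norm.tendsto
        rwa [hζ0, norm_zero] at this
      exact this.eventually_lt_const (by positivity)
    filter_upwards [e1, hZζ] with y hy hy2
    obtain ⟨τ, hτ⟩ := IsAlgClosed.exists_pow_nat_eq (ζ y) hk
    refine ⟨τ, ?_, ?_⟩
    · rw [mem_ball_zero_iff]
      rw [← hτ, norm_pow] at hy
      exact lt_of_pow_lt_pow_left₀ k hρ'.le hy
    · show Z (τ ^ k) = y
      rw [hτ, hy2]

end Pool.Agent.Q72.SP
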