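import Pool.Agent.Q72.SP.Branch

set_option autoImplicit false

open Filter Topology Set Complex Metric

namespace Pool.Agent.Q72.SP

theorem growth_bound {f : ℂ → ℂ} (hf : Differentiable ℂ f) {K R M : ℝ} (hR : 0 < R)
    (hM : ∀ z, ‖z‖ = R → ‖f z‖ ≤ M)
    (h : ∀ z, R ≤ ‖z‖ → ‖z * deriv f z‖ ≤ K * ‖f z‖) (z : ℂ) (hz : R ≤ ‖z‖) :
    ‖f z‖ ≤ M * Real.exp (K * (Real.log ‖z‖ - Real.log R)) := by
  have hz0 : 0 < ‖z‖ := hR.trans_le hz
  set u : ℂ := z / ‖z‖ with hu
  have hun : ‖u‖ = 1 := by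
    rw [hu, norm_div, Complex.norm_real, norm_norm, div_self hz0.ne']
  set v : ℝ → ℂ := fun t => f (Complex.exp t * u) with hv
  have hnorm : ∀ t : ℝ, ‖Complex.exp t * u‖ = Real.exp t := by
    intro t
    rw [norm_mul, hun, mul_one, Complex.norm_exp, Complex.ofReal_re]
  have hd : ∀ t : ℝ, HasDerivAt v (Complex.exp t * u * deriv f (Complex.exp t * u)) t := by
    intro t
    have h1 : HasDerivAt (fun t : ℝ => Complex.exp (t : ℂ) * u) (Complex.exp t * u) t := by
      have h2 : HasDerivAt (fun s : ℂ => Complex.exp s * u) (Complex.exp (t : ℂ) * u) (t : ℂ) :=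
        (Complex.hasDerivAt_exp (t : ℂ)).mul_const u
      exact h2.comp_ofReal
    have h3 := (hf (Complex.exp t * u)).hasDerivAt.scomp t h1
    rw [smul_eq_mul] at h3
    exact h3
  have hle : Real.log R ≤ Real.log ‖z‖ := Real.log_le_log hR hz
  have key := norm_le_gronwallBound_of_norm_deriv_right_le (f := v)
    (f' := fun t => Complex.exp t * u * deriv f (Complex.exp t * u)) (δ := M) (K := K) (ε := 0)
    (a := Real.log R) (b := Real.log ‖z‖)
    (fun t _ => (hd t).continuousAt.continuousWithinAt)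
    (fun t _ => (hd t).hasDerivWithinAt)
    (by
      apply hM
      rw [hnorm, Real.exp_log hR])
    (by
      intro t ht
      rw [add_zero]
      apply h
      rw [hnorm, ← Real.log_le_iff_le_exp hR]
      exact ht.1)
    (Real.log ‖z‖) ⟨hle, le_refl _⟩
  rw [gronwallBound_ε0] at key
  have e1 : v (Real.log ‖z‖) = f z := by
    simp only [hv]
    congr 1
    rw [← Complex.ofReal_exp, Real.exp_log hz0, hu]
    exact mul_div_cancel₀ z (Complex.ofReal_ne_zero.2 hz0.ne')
  rw [e1] at key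
  exact key

theorem mono_of_growth {f : ℂ → ℂ} (hf : Differentiable ℂ f) (m : ℕ)
    (hm : (m : ℕ∞) ≤ analyticOrderAt f 0) {R : ℝ} (hR : 0 < R)
    (h : ∀ z : ℂ, R ≤ ‖z‖ → ∃ b : ℂ, z * deriv f z = b * f z ∧ ‖b - m‖ ≤ 1 / 2) :
    ∃ c : ℂ, ∀ z, f z = c * z ^ m := by
  obtain ⟨M, hM⟩ : ∃ M : ℝ, ∀ z : ℂ, ‖z‖ = R → ‖f z‖ ≤ M := by
    have hc : IsCompact (sphere (0:ℂ) R) := isCompact_sphere 0 R
    obtain ⟨M, hM⟩ := hc.exists_bound_of_continuousOn hf.continuous.continuousOn
    exact ⟨M, fun z hz => hM z (by rw [mem_sphere_zero_iff_norm]; exact hz)⟩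
  have hg : ∀ z : ℂ, R ≤ ‖z‖ → ‖f z‖ ≤ M * Real.exp ((m + 1 / 2) * (Real.log ‖z‖ - Real.log R)) := by
    apply growth_bound hf hR hM
    intro z hz
    obtain ⟨b, hb, hb2⟩ := h z hz
    rw [hb, norm_mul]
    apply mul_le_mul_of_nonneg_right _ (norm_nonneg _)
    have : ‖b‖ ≤ ‖b - m‖ + ‖(m:ℂ)‖ := by
      have := norm_add_le (b - m) (m:ℂ)
      simpa using this
    rw [Complex.norm_natCast] at this
    linarith
  have hM0 : 0 ≤ M := (norm_nonneg _).trans (hM (R:ℂ) (by
    rw [Complex.norm_real, Real.norm_of_nonneg hR.le]))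
  have hcoef : ∀ n : ℕ, m < n → iteratedDeriv n f 0 = 0 := by
    intro n hn
    have hb : ∀ r : ℝ, R ≤ r → 1 ≤ r →
        ‖iteratedDeriv n f 0‖ ≤ (n.factorial * (M * Real.exp (-(m + 1 / 2) * Real.log R))) *
          r ^ (-(1/2) : ℝ) := by
      intro r hr hr1
      have hr0 : 0 < r := hR.trans_le hr
      have h1 := Complex.norm_iteratedDeriv_le_of_forall_mem_sphere_norm_le (c := (0:ℂ)) (R := r)
        (C := M * Real.exp ((m + 1 / 2) * (Real.log r - Real.log R))) (f := f) n hr0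
        hf.diffContOnCl (by
          intro z hz
          rw [mem_sphere_zero_iff_norm] at hz
          have := hg z (by rw [hz]; exact hr)
          rwa [hz] at this)
      refine h1.trans ?_
      have e1 : Real.exp ((m + 1 / 2) * (Real.log r - Real.log R)) =
          Real.exp (-(m + 1 / 2) * Real.log R) * Real.exp (Real.log r * (m + 1 / 2)) := by
        rw [← Real.exp_add]; congr 1; ring
      have e2 : (r:ℝ) ^ n = Real.exp (Real.log r * n) := by
        rw [← Real.rpow_natCast, Real.rpow_def_of_pos hr0]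
      have e3 : r ^ (-(1/2) : ℝ) = Real.exp (Real.log r * (-(1/2))) := Real.rpow_def_of_pos hr0 _
      rw [e1, e2, e3, mul_div_assoc]
      have h5 : Real.exp (Real.log r * (m + 1 / 2)) / Real.exp (Real.log r * n) ≤
          Real.exp (Real.log r * (-(1/2))) := by
        rw [← Real.exp_sub]
        apply Real.exp_le_exp.2
        have hlr : 0 ≤ Real.log r := Real.log_nonneg hr1
        have hnm : (m:ℝ) + 1 ≤ n := by exact_mod_cast hn
        nlinarith
      calc (n.factorial : ℝ) * (M * (Real.exp (-(m + 1 / 2) * Real.log R) *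
              Real.exp (Real.log r * (m + 1 / 2))) / Real.exp (Real.log r * n))
          = (n.factorial * (M * Real.exp (-(m + 1 / 2) * Real.log R))) *
            (Real.exp (Real.log r * (m + 1 / 2)) / Real.exp (Real.log r * n)) := by ring
        _ ≤ _ := mul_le_mul_of_nonneg_left h5 (by positivity)
    have ht : Tendsto (fun r : ℝ => (n.factorial * (M * Real.exp (-(m + 1 / 2) * Real.log R))) *
          r ^ (-(1/2) : ℝ)) atTop (𝓝 0) := by
      have := (tendsto_rpow_neg_atTop (y := 1/2) (by norm_num)).const_mul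
        (n.factorial * (M * Real.exp (-(m + 1 / 2) * Real.log R)))
      rwa [mul_zero] at this
    have h3 : ‖iteratedDeriv n f 0‖ ≤ 0 := by
      apply ge_of_tendsto ht
      filter_upwards [eventually_ge_atTop R, eventually_ge_atTop 1] with r h1 h2
      exact hb r h1 h2
    exact norm_le_zero_iff.1 h3
  have hlow : ∀ n : ℕ, n < m → iteratedDeriv n f 0 = 0 :=
    (natCast_le_analyticOrderAt_iff_iteratedDeriv_eq_zero (hf.analyticAt 0)).1 hm
  refine ⟨(m.factorial : ℂ)⁻¹ * iteratedDeriv m f 0, ?_⟩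
  intro z
  have h1 := Complex.hasSum_taylorSeries_of_entire hf 0 z
  have h2 : HasSum (fun n : ℕ => (n.factorial : ℂ)⁻¹ • (z - 0) ^ n • iteratedDeriv n f 0)
      ((m.factorial : ℂ)⁻¹ • (z - 0) ^ m • iteratedDeriv m f 0) := by
    apply hasSum_single
    intro n hn
    rcases lt_or_gt_of_ne hn with h3 | h3
    · rw [hlow n h3]; simp
    · rw [hcoef n h3]; simp
  rw [h1.unique h2]
  simp only [sub_zero, smul_eq_mul]
  ring

/-- near a zero of order `m` at the origin, `w g'(w) / g(w)` is close to `m` -/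
theorem near_zero {g : ℂ → ℂ} (hg : Differentiable ℂ g) (hg0 : ¬ ∀ z, g z = 0) :
    ∃ δ > 0, ∀ w : ℂ, w ≠ 0 → ‖w‖ < δ → g w ≠ 0 ∧
      ∃ b : ℂ, w * deriv g w = b * g w ∧ ‖b - analyticOrderNatAt g 0‖ ≤ 1 / 2 := by
  have hne : ¬ ∀ᶠ z in 𝓝 (0:ℂ), g z = 0 := by
    intro h
    apply hg0
    intro z
    have h2 : AnalyticOnNhd ℂ g univ := fun z _ => hg.analyticAt z
    have := h2.eqOn_zero_of_preconnected_of_eventuallyEq_zero isPreconnected_univ (mem_univ 0) h
    exact this (mem_univ z)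
  have hfin : analyticOrderAt g 0 ≠ ⊤ := by
    rw [Ne, analyticOrderAt_eq_top]
    exact hne
  obtain ⟨h, hh, hh0, hq⟩ := ((hg.analyticAt 0).analyticOrderNatAt_eq_iff hfin).1 rfl
  set q := analyticOrderNatAt g 0 with hqdef
  have hc : ContinuousAt (fun w => w * deriv h w / h w) 0 :=
    (continuousAt_id.mul hh.deriv.continuousAt).div hh.continuousAt hh0
  have hc1 : ∀ᶠ w in 𝓝 (0:ℂ), ‖w * deriv h w / h w‖ ≤ 1 / 2 := by
    have : Tendsto (fun w => ‖w * deriv h w / h w‖) (𝓝 0) (𝓝 0) := by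
      have := hc.norm.tendsto
      simpa using this
    exact this.eventually_le_const (by norm_num)
  have e0 : ∀ᶠ w in 𝓝 (0:ℂ), w * deriv g w = q * g w + w ^ q * (w * deriv h w) := by
    filter_upwards [hq.eventually_nhds, hh.eventually_analyticAt] with w hw hhw
    have h5 : g =ᶠ[𝓝 w] fun z => z ^ q * h z := by
      filter_upwards [hw] with y hy
      rw [hy, smul_eq_mul, sub_zero]
    rw [h5.deriv_eq, h5.self_of_nhds]
    rw [((hasDerivAt_pow q w).fun_mul hhw.differentiableAt.hasDerivAt).deriv]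
    rcases Nat.eq_zero_or_pos q with h0 | h0
    · rw [h0]; simp
    · obtain ⟨r, hr⟩ : ∃ r, q = r + 1 := ⟨q - 1, by omega⟩
      rw [hr]
      simp only [Nat.add_sub_cancel]
      ring
  obtain ⟨δ, hδ, hδ2⟩ := Metric.eventually_nhds_iff.1 (hc1.and (e0.and (hq.and
    (hh.continuousAt.eventually_ne hh0))))
  refine ⟨δ, hδ, ?_⟩
  intro w hw0 hw
  obtain ⟨h1, h2, h3, h4⟩ := hδ2 (y := w) (by rw [dist_zero_right]; exact hw)
  rw [sub_zero, smul_eq_mul] at h3
  refine ⟨?_, q + w * deriv h w / h w, ?_, ?_⟩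
  · rw [h3]; exact mul_ne_zero (pow_ne_zero _ hw0) h4
  · rw [h2, h3]; field_simp
  · rw [add_sub_cancel_left]; exact h1

end Pool.Agent.Q72.SP
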