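import Mathlib

set_option autoImplicit false

open Filter Topology Set Complex

namespace Pool.Agent.Q72.SP

/-- A local root coordinate: near a zero, an analytic function is the `l`-th power of a local
coordinate. -/
theorem root_coord {α : ℂ → ℂ} {z1 : ℂ} (hα : AnalyticAt ℂ α z1) (h0 : α z1 = 0)
    (hne : ¬ ∀ᶠ z in 𝓝 z1, α z = 0) :
    ∃ (l : ℕ) (Z ζ : ℂ → ℂ), 0 < l ∧ AnalyticAt ℂ Z 0 ∧ Z 0 = z1 ∧ AnalyticAt ℂ ζ z1 ∧ ζ z1 = 0 ∧
      (∀ᶠ z in 𝓝 z1, Z (ζ z) = z) ∧ (∀ᶠ z in 𝓝 z1, α z = ζ z ^ l) ∧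
      (∀ᶠ t in 𝓝 (0:ℂ), ζ (Z t) = t) := by
  obtain ⟨l, g, hg, hg0, hgl⟩ := (hα.exists_eventuallyEq_pow_smul_nonzero_iff).2 hne
  have hl : 0 < l := by
    rcases Nat.eq_zero_or_pos l with h | h
    · exfalso
      subst h
      have := hgl.self_of_nhds
      simp at this
      rw [h0] at this
      exact hg0 this.symm
    · exact h
  obtain ⟨C, hC⟩ := IsAlgClosed.exists_pow_nat_eq (g z1) hl
  have hC0 : C ≠ 0 := by
    rintro rfl
    rw [zero_pow hl.ne'] at hC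
    exact hg0 hC.symm
  set ζ : ℂ → ℂ := fun z => (z - z1) * (C * Complex.exp (Complex.log (g z / g z1) / l)) with hζ
  have hlog : AnalyticAt ℂ (fun z => Complex.log (g z / g z1)) z1 := by
    apply AnalyticAt.clog
    · exact hg.div analyticAt_const hg0
    · rw [div_self hg0]; exact Complex.one_mem_slitPlane
  have hu : AnalyticAt ℂ (fun z => C * Complex.exp (Complex.log (g z / g z1) / l)) z1 := by
    apply analyticAt_const.mul
    exact (hlog.div analyticAt_const (by exact_mod_cast hl.ne')).cexp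
  have hζa : AnalyticAt ℂ ζ z1 := (analyticAt_id.sub analyticAt_const).mul hu
  have hζ0 : ζ z1 = 0 := by simp [hζ]
  have hd : HasDerivAt ζ C z1 := by
    have h1 : HasDerivAt (fun z : ℂ => z - z1) 1 z1 := (hasDerivAt_id z1).sub_const z1
    have h2 := h1.mul hu.differentiableAt.hasDerivAt
    simp only [sub_self, zero_mul, add_zero, one_mul, div_self hg0, Complex.log_one, zero_div,
      Complex.exp_zero, mul_one] at h2
    exact h2
  have hsd : HasStrictDerivAt ζ C z1 := by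
    have := hζa.hasStrictDerivAt
    rwa [hd.deriv] at this
  have hcd : ContDiffAt ℂ 1 ζ z1 := hζa.contDiffAt
  have hfe := hsd.hasStrictFDerivAt_equiv hC0
  set Z := hcd.localInverse hfe.hasFDerivAt one_ne_zero with hZ
  have hZd : ContDiffAt ℂ 1 Z (ζ z1) := hcd.to_localInverse hfe.hasFDerivAt one_ne_zero
  rw [hζ0] at hZd
  refine ⟨l, Z, ζ, hl, ?_, ?_, hζa, hζ0, ?_, ?_, ?_⟩
  · rw [analyticAt_iff_eventually_differentiableAt]
    have := hZd.eventually (by simp)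
    exact this.mono fun t ht => ht.differentiableAt (by norm_num)
  · have := hcd.localInverse_apply_image hfe.hasFDerivAt one_ne_zero
    rw [hζ0] at this
    exact this
  · exact HasStrictFDerivAt.eventually_left_inverse _
  · filter_upwards [hgl, hg.continuousAt.eventually_ne hg0] with z hz hgz
    rw [hz, hζ]
    simp only [smul_eq_mul]
    rw [mul_pow, mul_pow, hC, ← Complex.exp_nat_mul]
    congr 1
    rw [mul_div_cancel₀ _ (by exact_mod_cast hl.ne' : (l:ℂ) ≠ 0), Complex.exp_log (div_ne_zero hgz hg0)]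
    field_simp
  · have := HasStrictFDerivAt.eventually_right_inverse (hcd.hasStrictFDerivAt' hfe.hasFDerivAt one_ne_zero)
    rw [hζ0] at this
    exact this

/-- Parametrisation of the branches of the curve `α z = β w` at a point. -/
theorem puiseux {α β : ℂ → ℂ} {z1 w1 : ℂ} (hα : AnalyticAt ℂ α z1) (h0 : α z1 = 0)
    (hne : ¬ ∀ᶠ z in 𝓝 z1, α z = 0) (hβ : AnalyticAt ℂ β w1) (h0' : β w1 = 0)
    (hne' : ¬ ∀ᶠ w in 𝓝 w1, β w = 0) :
    ∃ (k l : ℕ) (Z W ζ : ℂ → ℂ), 0 < k ∧ 0 < l ∧ AnalyticAt ℂ Z 0 ∧ Z 0 = z1 ∧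
      AnalyticAt ℂ W 0 ∧ W 0 = w1 ∧ (∀ᶠ t in 𝓝 (0:ℂ), ζ (Z t) = t) ∧
      (∀ᶠ z in 𝓝 z1, Z (ζ z) = z) ∧ AnalyticAt ℂ ζ z1 ∧ ζ z1 = 0 ∧
      (∀ᶠ t in 𝓝 (0:ℂ), α (Z t) = t ^ l) ∧ (∀ᶠ s in 𝓝 (0:ℂ), β (W s) = s ^ k) ∧
      ∀ ρ : ℝ, 0 < ρ → ∀ᶠ p : ℂ × ℂ in 𝓝 (z1, w1), α p.1 = β p.2 →
        ∃ ε τ : ℂ, ε ^ k = 1 ∧ ‖τ‖ < ρ ∧ p.1 = Z (τ ^ k) ∧ p.2 = W (ε * τ ^ l) := by
  obtain ⟨l, Z, ζ, hl, hZ, hZ0, hζ, hζ0, hZζ, hαζ, hζZ⟩ := root_coord hα h0 hne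
  obtain ⟨k, W, ω, hk, hW, hW0, hω, hω0, hWω, hβω, hωW⟩ := root_coord hβ h0' hne'
  refine ⟨k, l, Z, W, ζ, hk, hl, hZ, hZ0, hW, hW0, hζZ, hZζ, hζ, hζ0, ?_, ?_, ?_⟩
  · have h1 : Tendsto Z (𝓝 0) (𝓝 z1) := by
      have := hZ.continuousAt.tendsto
      rwa [hZ0] at this
    filter_upwards [h1.eventually hαζ, hζZ] with t ht ht2
    rw [ht, ht2]
  · have h1 : Tendsto W (𝓝 0) (𝓝 w1) := by
      have := hW.continuousAt.tendsto
      rwa [hW0] at this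
    filter_upwards [h1.eventually hβω, hωW] with t ht ht2
    rw [ht, ht2]
  · intro ρ hρ
    have e1 : ∀ᶠ z in 𝓝 z1, ‖ζ z‖ < ρ ^ k := by
      have : Tendsto (fun z => ‖ζ z‖) (𝓝 z1) (𝓝 0) := by
        have := hζ.continuousAt.norm.tendsto
        rwa [hζ0, norm_zero] at this
      exact this.eventually_lt_const (by positivity)
    have e2 : ∀ᶠ p : ℂ × ℂ in 𝓝 (z1, w1), (Z (ζ p.1) = p.1 ∧ α p.1 = ζ p.1 ^ l ∧ ‖ζ p.1‖ < ρ ^ k) ∧
        (W (ω p.2) = p.2 ∧ β p.2 = ω p.2 ^ k) := by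
      rw [nhds_prod_eq]
      exact (hZζ.and (hαζ.and e1)).prod_mk (hWω.and hβω)
    filter_upwards [e2] with p hp hE
    obtain ⟨⟨h1, h2, h3⟩, h4, h5⟩ := hp
    obtain ⟨τ, hτ⟩ := IsAlgClosed.exists_pow_nat_eq (ζ p.1) hk
    have h6 : (τ ^ l) ^ k = ω p.2 ^ k := by
      rw [← h5, ← hE, h2, ← hτ]; ring
    have h7 : ‖τ‖ < ρ := by
      rw [← hτ, norm_pow] at h3
      exact lt_of_pow_lt_pow_left₀ k hρ.le h3
    rcases eq_or_ne τ 0 with h8 | h8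
    · refine ⟨1, τ, one_pow _, h7, by rw [hτ, h1], ?_⟩
      subst h8
      have h9 : ω p.2 = 0 := by
        rw [zero_pow hl.ne', zero_pow hk.ne'] at h6
        exact pow_eq_zero_iff hk.ne' |>.1 h6.symm
      rw [zero_pow hl.ne', mul_zero, ← h4, h9]
    · refine ⟨ω p.2 / τ ^ l, τ, ?_, h7, by rw [hτ, h1], ?_⟩
      · rw [div_pow, h6, div_self]
        rw [← h6]
        positivity
      · rw [div_mul_cancel₀ _ (pow_ne_zero _ h8), h4]

end Pool.Agent.Q72.SP
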