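import Pool.Agent.Q72.SP.Min

set_option autoImplicit false

open Filter Topology Set Complex Metric

namespace Pool.Agent.Q72.SP

theorem exists_min {A : Set (ℂ × ℂ)} (hA : IsClosed A) {G : ℂ × ℂ → ℝ} (hG : Continuous G)
    {q0 : ℂ × ℂ} (hq0 : q0 ∈ A) {B : ℝ} (hb : ∀ q ∈ A, G q ≤ G q0 → ‖q‖ ≤ B) :
    ∃ q1 ∈ A, ∀ q ∈ A, G q1 ≤ G q := by
  have hK : IsCompact ((A ∩ {q | G q ≤ G q0}) ∩ closedBall (0 : ℂ × ℂ) B) :=
    (isCompact_closedBall _ _).inter_left (hA.inter (isClosed_le hG continuous_const))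
  have hne : ((A ∩ {q | G q ≤ G q0}) ∩ closedBall (0 : ℂ × ℂ) B).Nonempty :=
    ⟨q0, ⟨hq0, show G q0 ≤ G q0 from le_rfl⟩, by rw [mem_closedBall_zero_iff]; exact hb q0 hq0 le_rfl⟩
  obtain ⟨q1, hq1, hmin⟩ := hK.exists_isMinOn hne hG.continuousOn
  refine ⟨q1, hq1.1.1, ?_⟩
  intro q hq
  rcases le_or_gt (G q) (G q0) with h | h
  · exact hmin ⟨⟨hq, h⟩, by rw [mem_closedBall_zero_iff]; exact hb q hq h⟩
  · exact (show G q1 ≤ G q0 from hq1.1.2).trans h.le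

theorem no_curve {f g : ℂ → ℂ} (hf : Differentiable ℂ f) (hg : Differentiable ℂ g)
    (hf0 : ¬ ∀ z, f z = 0) (hg0 : ¬ ∀ z, g z = 0)
    (hord : analyticOrderNatAt g 0 = analyticOrderNatAt f 0)
    (hmon : ¬ ∃ (c : ℂ) (m : ℕ), ∀ z, f z = c * z ^ m)
    {S : Set (ℂ × ℂ)} (hSc : IsClosed S) (hSne : S.Nonempty) (hS : ∀ q ∈ S, OnCurve f g q)
    {c : ℝ} (hc : 0 < c) (hSc2 : ∀ q ∈ S, c ≤ ‖q.1 * q.2‖)
    (hbr : ∀ z1 w1 : ℂ, (z1, w1) ∈ S → z1 ≠ 0 → w1 ≠ 0 →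
      ∃ (ρ : ℝ) (z w : ℂ → ℂ), 0 < ρ ∧ DifferentiableOn ℂ z (ball 0 ρ) ∧
      DifferentiableOn ℂ w (ball 0 ρ) ∧ z 0 = z1 ∧ w 0 = w1 ∧
      (∀ τ ∈ ball (0:ℂ) ρ, (z τ, w τ) ∈ S) ∧
      ∀ ρ' : ℝ, 0 < ρ' → ∀ᶠ y in 𝓝 z1, ∃ τ ∈ ball (0:ℂ) ρ', z τ = y) : False := by
  have hpos : ∀ q ∈ S, 0 < ‖q.1‖ ∧ 0 < ‖q.2‖ := by
    intro q hq
    have h1 := hSc2 q hq
    rw [norm_mul] at h1
    constructor
    · rcases (norm_nonneg q.1).eq_or_lt with h | h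
      · rw [← h, zero_mul] at h1; linarith
      · exact h
    · rcases (norm_nonneg q.2).eq_or_lt with h | h
      · rw [← h, mul_zero] at h1; linarith
      · exact h
  have hne : ∀ q ∈ S, q.1 ≠ 0 ∧ q.2 ≠ 0 := fun q hq =>
    ⟨norm_pos_iff.1 (hpos q hq).1, norm_pos_iff.1 (hpos q hq).2⟩
  have hGc : ∀ p : ℝ, 0 ≤ p → Continuous (fun q : ℂ × ℂ => ‖q.2‖ * ‖q.1‖ ^ p) := by
    intro p hp
    exact continuous_snd.norm.mul ((continuous_fst.norm).rpow_const fun _ => Or.inr hp)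
  -- outside
  have hout : ∀ p : ℝ, 1 < p → ∀ q0 ∈ S, 1 ≤ ‖q0.1‖ →
      ∃ q1 ∈ S, ‖q1.1‖ = 1 ∧ ‖q1.2‖ ≤ ‖q0.2‖ * ‖q0.1‖ ^ p := by
    intro p hp q0 hq0 hq01
    set C := ‖q0.2‖ * ‖q0.1‖ ^ p with hC
    have hA : IsClosed (S ∩ {q : ℂ × ℂ | 1 ≤ ‖q.1‖}) :=
      hSc.inter (isClosed_le continuous_const continuous_fst.norm)
    obtain ⟨q1, ⟨hq1S, hq11⟩, hmin⟩ := exists_min hA (hGc p (by linarith)) (q0 := q0)
      ⟨hq0, hq01⟩ (B := max ((C / c) ^ (1 / (p - 1))) C) (by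
        rintro q ⟨hqS, hq1⟩ hqC
        have h1 : 1 ≤ ‖q.1‖ := hq1
        have h2 : ‖q.2‖ * ‖q.1‖ ^ p ≤ C := hqC
        obtain ⟨hp1, hp2⟩ := hpos q hqS
        have h3 := hSc2 q hqS
        rw [norm_mul] at h3
        rw [Prod.norm_def]
        apply max_le_max
        · have h4 : ‖q.1‖ ^ (p - 1) ≤ C / c := by
            rw [le_div_iff₀ hc]
            have h5 : ‖q.1‖ ^ p = ‖q.1‖ ^ (p - 1) * ‖q.1‖ := by
              rw [← Real.rpow_add_one hp1.ne']; congr 1; ring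
            rw [h5] at h2
            have h6 : 0 < ‖q.1‖ ^ (p - 1) := Real.rpow_pos_of_pos hp1 _
            nlinarith
          have h7 : (‖q.1‖ ^ (p - 1)) ^ (1 / (p - 1)) ≤ (C / c) ^ (1 / (p - 1)) :=
            Real.rpow_le_rpow (by positivity) h4 (by
              apply div_nonneg zero_le_one; linarith)
          rwa [← Real.rpow_mul hp1.le, mul_one_div_cancel (by linarith : p - 1 ≠ 0),
            Real.rpow_one] at h7
        · have h4 : 1 ≤ ‖q.1‖ ^ p := Real.one_le_rpow h1 (by linarith)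
          nlinarith)
    have hq11' : 1 ≤ ‖q1.1‖ := hq11
    refine ⟨q1, hq1S, ?_, ?_⟩
    · by_contra hcon
      have hgt : 1 < ‖q1.1‖ := lt_of_le_of_ne hq11' (Ne.symm hcon)
      refine not_locmin hf hg hf0 hg0 hord hmon hS (hne q1 hq1S).1 (hne q1 hq1S).2
        (hbr q1.1 q1.2 hq1S (hne q1 hq1S).1 (hne q1 hq1S).2) (p := p) (by linarith)
        (N := {z : ℂ | 1 < ‖z‖}) ?_ ?_
      · exact (isOpen_lt continuous_const continuous_norm).mem_nhds hgt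
      · intro q hq hq1
        exact hmin q ⟨hq, (show 1 < ‖q.1‖ from hq1).le⟩
    · have h1 := hmin q0 ⟨hq0, hq01⟩
      refine le_trans ?_ h1
      have h4 : 1 ≤ ‖q1.1‖ ^ p := Real.one_le_rpow hq11' (by linarith)
      nlinarith [norm_nonneg q1.2]
  -- inside
  have hinn : ∀ p : ℝ, 0 < p → p < 1 → ∀ q0 ∈ S, ‖q0.1‖ ≤ 1 →
      ∃ q1 ∈ S, ‖q1.1‖ = 1 ∧ ‖q1.2‖ ≤ ‖q0.2‖ * ‖q0.1‖ ^ p := by
    intro p hp hp1 q0 hq0 hq01
    set C := ‖q0.2‖ * ‖q0.1‖ ^ p with hC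
    have hC0 : 0 < C := mul_pos (hpos q0 hq0).2 (Real.rpow_pos_of_pos (hpos q0 hq0).1 _)
    have hA : IsClosed (S ∩ {q : ℂ × ℂ | ‖q.1‖ ≤ 1}) :=
      hSc.inter (isClosed_le continuous_fst.norm continuous_const)
    set r0 := (c / C) ^ (1 / (1 - p)) with hr0
    have hr0p : 0 < r0 := Real.rpow_pos_of_pos (div_pos hc hC0) _
    obtain ⟨q1, ⟨hq1S, hq11⟩, hmin⟩ := exists_min hA (hGc p (by linarith)) (q0 := q0)
      ⟨hq0, hq01⟩ (B := max 1 (C / r0 ^ p)) (by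
        rintro q ⟨hqS, hq1⟩ hqC
        have h1 : ‖q.1‖ ≤ 1 := hq1
        have h2 : ‖q.2‖ * ‖q.1‖ ^ p ≤ C := hqC
        obtain ⟨hp1', hp2⟩ := hpos q hqS
        have h3 := hSc2 q hqS
        rw [norm_mul] at h3
        rw [Prod.norm_def]
        apply max_le_max h1
        have h4 : c / C ≤ ‖q.1‖ ^ (1 - p) := by
          rw [div_le_iff₀ hC0]
          have h5 : ‖q.1‖ = ‖q.1‖ ^ (1 - p) * ‖q.1‖ ^ p := by
            rw [← Real.rpow_add hp1']; rw [sub_add_cancel, Real.rpow_one]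
          have h6 : 0 < ‖q.1‖ ^ (1 - p) := Real.rpow_pos_of_pos hp1' _
          calc c ≤ ‖q.1‖ * ‖q.2‖ := h3
            _ = ‖q.1‖ ^ (1 - p) * (‖q.2‖ * ‖q.1‖ ^ p) := by
              nth_rewrite 1 [h5]; ring
            _ ≤ ‖q.1‖ ^ (1 - p) * C := mul_le_mul_of_nonneg_left h2 h6.le
        have h7 : r0 ≤ ‖q.1‖ := by
          have h8 : (c / C) ^ (1 / (1 - p)) ≤ (‖q.1‖ ^ (1 - p)) ^ (1 / (1 - p)) :=
            Real.rpow_le_rpow (by positivity) h4 (by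
              apply div_nonneg zero_le_one; linarith)
          rwa [← Real.rpow_mul hp1'.le, mul_one_div_cancel (by linarith : 1 - p ≠ 0),
            Real.rpow_one] at h8
        have h9 : r0 ^ p ≤ ‖q.1‖ ^ p := Real.rpow_le_rpow hr0p.le h7 hp.le
        rw [le_div_iff₀ (Real.rpow_pos_of_pos hr0p p)]
        exact (mul_le_mul_of_nonneg_left h9 hp2.le).trans h2)
    have hq11' : ‖q1.1‖ ≤ 1 := hq11
    have hone : ‖q1.1‖ = 1 := by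
      by_contra hcon
      have hgt : ‖q1.1‖ < 1 := lt_of_le_of_ne hq11' hcon
      refine not_locmin hf hg hf0 hg0 hord hmon hS (hne q1 hq1S).1 (hne q1 hq1S).2
        (hbr q1.1 q1.2 hq1S (hne q1 hq1S).1 (hne q1 hq1S).2) (p := p) hp
        (N := {z : ℂ | ‖z‖ < 1}) ?_ ?_
      · exact (isOpen_lt continuous_norm continuous_const).mem_nhds hgt
      · intro q hq hq1
        exact hmin q ⟨hq, (show ‖q.1‖ < 1 from hq1).le⟩
    refine ⟨q1, hq1S, hone, ?_⟩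
    have h1 := hmin q0 ⟨hq0, hq01⟩
    simp only [hone, Real.one_rpow, mul_one] at h1
    exact h1
  -- the circle
  obtain ⟨q0, hq0⟩ := hSne
  obtain ⟨qa, hqaS, hqa1⟩ : ∃ q ∈ S, ‖q.1‖ = 1 := by
    rcases le_total 1 ‖q0.1‖ with h | h
    · obtain ⟨q1, h1, h2, _⟩ := hout 2 (by norm_num) q0 hq0 h
      exact ⟨q1, h1, h2⟩
    · obtain ⟨q1, h1, h2, _⟩ := hinn (1/2) (by norm_num) (by norm_num) q0 hq0 h
      exact ⟨q1, h1, h2⟩
  have hA : IsClosed (S ∩ {q : ℂ × ℂ | ‖q.1‖ = 1}) :=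
    hSc.inter (isClosed_eq continuous_fst.norm continuous_const)
  obtain ⟨qs, ⟨hqsS, hqs1⟩, hmin⟩ := exists_min hA (G := fun q => ‖q.2‖) continuous_snd.norm
    (q0 := qa) ⟨hqaS, hqa1⟩ (B := max 1 ‖qa.2‖) (by
      rintro q ⟨hqS, hq1⟩ hqC
      rw [Prod.norm_def]
      exact max_le_max (le_of_eq hq1) hqC)
  have hqs1' : ‖qs.1‖ = 1 := hqs1
  have hall : ∀ q ∈ S, ‖qs.2‖ ≤ ‖q.2‖ * ‖q.1‖ ^ (1:ℝ) := by
    intro q hq
    have hcont : ContinuousAt (fun p : ℝ => ‖q.2‖ * ‖q.1‖ ^ p) 1 :=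
      (continuousAt_const.mul (Real.continuousAt_const_rpow (hpos q hq).1.ne'))
    rcases le_total 1 ‖q.1‖ with h | h
    · have ht : Tendsto (fun p : ℝ => ‖q.2‖ * ‖q.1‖ ^ p) (𝓝[>] 1) (𝓝 (‖q.2‖ * ‖q.1‖ ^ (1:ℝ))) :=
        hcont.tendsto.mono_left nhdsWithin_le_nhds
      apply ge_of_tendsto ht
      filter_upwards [self_mem_nhdsWithin] with p hp
      obtain ⟨q1, h1, h2, h3⟩ := hout p hp q hq h
      exact (hmin q1 ⟨h1, h2⟩).trans h3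
    · have ht : Tendsto (fun p : ℝ => ‖q.2‖ * ‖q.1‖ ^ p) (𝓝[<] 1) (𝓝 (‖q.2‖ * ‖q.1‖ ^ (1:ℝ))) :=
        hcont.tendsto.mono_left nhdsWithin_le_nhds
      apply ge_of_tendsto ht
      have h0 : ∀ᶠ p : ℝ in 𝓝[<] 1, 0 < p :=
        (lt_mem_nhds (by norm_num : (0:ℝ) < 1)).filter_mono nhdsWithin_le_nhds
      filter_upwards [self_mem_nhdsWithin, h0] with p hp hp0
      obtain ⟨q1, h1, h2, h3⟩ := hinn p hp0 hp q hq h
      exact (hmin q1 ⟨h1, h2⟩).trans h3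
  refine not_locmin hf hg hf0 hg0 hord hmon hS (hne qs hqsS).1 (hne qs hqsS).2
    (hbr qs.1 qs.2 hqsS (hne qs hqsS).1 (hne qs hqsS).2) (p := 1) one_pos (N := univ) univ_mem ?_
  intro q hq _
  rw [hqs1', Real.one_rpow, mul_one]
  exact hall q hq

end Pool.Agent.Q72.SP
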