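import Pool.Agent.Q72.SP.Growth

set_option autoImplicit false

open Filter Topology Set Complex Metric

namespace Pool.Agent.Q72.SP

/-- The equation of the closure of the curve. -/
def OnCurve (f g : ℂ → ℂ) (p : ℂ × ℂ) : Prop :=
  p.1 * deriv f p.1 * g p.2 = p.2 * deriv g p.2 * f p.1

/-- A whole spiral on the curve forces `f` to be a monomial. -/
theorem mono_of_spiral {f g : ℂ → ℂ} (hf : Differentiable ℂ f) (hg : Differentiable ℂ g)
    (hf0 : ¬ ∀ z, f z = 0) (hg0 : ¬ ∀ z, g z = 0)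
    (hord : analyticOrderNatAt g 0 = analyticOrderNatAt f 0)
    {z1 w1 : ℂ} (hz1 : z1 ≠ 0) (hw1 : w1 ≠ 0) {p : ℝ} (hp : 0 < p)
    (h : ∀ ζ : ℂ, OnCurve f g (z1 * exp ζ, w1 * exp (-(p * ζ)))) :
    ∃ (c : ℂ) (m : ℕ), ∀ z, f z = c * z ^ m := by
  obtain ⟨δ, hδ, hδ2⟩ := near_zero hg hg0
  rw [hord] at hδ2
  set m := analyticOrderNatAt f 0 with hm
  have hfin : analyticOrderAt f 0 ≠ ⊤ := by
    rw [Ne, analyticOrderAt_eq_top]
    intro h
    apply hf0
    intro z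
    have h2 : AnalyticOnNhd ℂ f univ := fun z _ => hf.analyticAt z
    have := h2.eqOn_zero_of_preconnected_of_eventuallyEq_zero isPreconnected_univ (mem_univ 0) h
    exact this (mem_univ z)
  have hmle : (m : ℕ∞) ≤ analyticOrderAt f 0 := by
    rw [hm, Nat.cast_analyticOrderNatAt hfin]
  -- choose R
  have hw1n : 0 < ‖w1‖ := norm_pos_iff.2 hw1
  have hz1n : 0 < ‖z1‖ := norm_pos_iff.2 hz1
  have htend : Tendsto (fun r : ℝ => ‖w1‖ * Real.exp (-(p * Real.log (r / ‖z1‖)))) atTop (𝓝 0) := by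
    have h1 : Tendsto (fun r : ℝ => r / ‖z1‖) atTop atTop := tendsto_id.atTop_div_const hz1n
    have h2 : Tendsto (fun r : ℝ => p * Real.log (r / ‖z1‖)) atTop atTop :=
      (Real.tendsto_log_atTop.comp h1).const_mul_atTop hp
    have h3 := (Real.tendsto_exp_neg_atTop_nhds_zero.comp h2).const_mul ‖w1‖
    rw [mul_zero] at h3
    exact h3
  obtain ⟨R0, hR0⟩ := eventually_atTop.1 (htend.eventually_lt_const hδ)
  obtain ⟨c, hc⟩ := mono_of_growth hf m hmle (R := max R0 1) (by positivity) (by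
    intro z hz
    have hz0 : 0 < ‖z‖ := lt_of_lt_of_le (by positivity) hz
    have hzne : z ≠ 0 := norm_pos_iff.1 hz0
    have hlt := hR0 ‖z‖ ((le_max_left _ _).trans hz)
    set ζ : ℂ := Complex.log (z / z1) with hζ
    have hzz : z1 * exp ζ = z := by
      rw [hζ, Complex.exp_log (div_ne_zero hzne hz1)]
      field_simp
    have h1 := h ζ
    simp only [OnCurve] at h1
    rw [hzz] at h1
    set w : ℂ := w1 * exp (-(p * ζ)) with hw
    have hwn : ‖w‖ < δ := by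
      have : ‖w‖ = ‖w1‖ * Real.exp (-(p * Real.log (‖z‖ / ‖z1‖))) := by
        rw [hw, norm_mul, Complex.norm_exp]
        congr 2
        rw [neg_re, re_ofReal_mul, hζ, Complex.log_re, norm_div]
      rw [this]; exact hlt
    have hwne : w ≠ 0 := mul_ne_zero hw1 (exp_ne_zero _)
    obtain ⟨hgw, b, hb, hb2⟩ := hδ2 w hwne hwn
    refine ⟨b, ?_, hb2⟩
    rw [hb] at h1
    apply mul_right_cancel₀ hgw
    linear_combination h1)
  exact ⟨c, m, hc⟩

theorem not_locmin {f g : ℂ → ℂ} (hf : Differentiable ℂ f) (hg : Differentiable ℂ g)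
    (hf0 : ¬ ∀ z, f z = 0) (hg0 : ¬ ∀ z, g z = 0)
    (hord : analyticOrderNatAt g 0 = analyticOrderNatAt f 0)
    (hmon : ¬ ∃ (c : ℂ) (m : ℕ), ∀ z, f z = c * z ^ m)
    {S : Set (ℂ × ℂ)} (hS : ∀ q ∈ S, OnCurve f g q)
    {z1 w1 : ℂ} (hz1 : z1 ≠ 0) (hw1 : w1 ≠ 0)
    (hbr : ∃ (ρ : ℝ) (z w : ℂ → ℂ), 0 < ρ ∧ DifferentiableOn ℂ z (ball 0 ρ) ∧
      DifferentiableOn ℂ w (ball 0 ρ) ∧ z 0 = z1 ∧ w 0 = w1 ∧
      (∀ τ ∈ ball (0:ℂ) ρ, (z τ, w τ) ∈ S) ∧
      ∀ ρ' : ℝ, 0 < ρ' → ∀ᶠ y in 𝓝 z1, ∃ τ ∈ ball (0:ℂ) ρ', z τ = y)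
    {p : ℝ} (hp : 0 < p) {N : Set ℂ} (hN : N ∈ 𝓝 z1)
    (hmin : ∀ q ∈ S, q.1 ∈ N → ‖w1‖ * ‖z1‖ ^ p ≤ ‖q.2‖ * ‖q.1‖ ^ p) : False := by
  apply hmon
  obtain ⟨ρ, z, w, hρ, hz, hw, hz0, hw0, hSm, hsurj⟩ := hbr
  have hz1n : 0 < ‖z1‖ := norm_pos_iff.2 hz1
  set H : ℂ → ℂ := fun τ => w τ * exp (p * Complex.log (z τ / z1)) with hH
  have hball : ball (0:ℂ) ρ ∈ 𝓝 (0:ℂ) := ball_mem_nhds _ hρ
  have hzc : ContinuousAt z 0 := (hz.differentiableAt hball).continuousAt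
  have hwc : ContinuousAt w 0 := (hw.differentiableAt hball).continuousAt
  have e1 : ∀ᶠ τ in 𝓝 (0:ℂ), z τ / z1 ∈ slitPlane := by
    have h1 : ContinuousAt (fun τ => z τ / z1) 0 := hzc.div_const z1
    apply h1.eventually_mem
    rw [hz0, div_self hz1]
    exact isOpen_slitPlane.mem_nhds one_mem_slitPlane
  have e2 : ∀ᶠ τ in 𝓝 (0:ℂ), z τ ∈ N := hzc.eventually_mem (by rw [hz0]; exact hN)
  have e3 : ∀ᶠ τ in 𝓝 (0:ℂ), τ ∈ ball (0:ℂ) ρ := hball
  have e4 : ∀ᶠ τ in 𝓝 (0:ℂ), w τ ≠ 0 := hwc.eventually_ne (by rw [hw0]; exact hw1)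
  have e5 : ∀ᶠ τ in 𝓝 (0:ℂ), z τ ≠ 0 := hzc.eventually_ne (by rw [hz0]; exact hz1)
  have hd : ∀ᶠ τ in 𝓝 (0:ℂ), DifferentiableAt ℂ (fun τ => (H τ)⁻¹) τ := by
    filter_upwards [e1, e3, e4] with τ h1 h3 h4
    have hzd : DifferentiableAt ℂ z τ := hz.differentiableAt (isOpen_ball.mem_nhds h3)
    have hwd : DifferentiableAt ℂ w τ := hw.differentiableAt (isOpen_ball.mem_nhds h3)
    apply DifferentiableAt.inv
    · apply hwd.mul
      apply DifferentiableAt.cexp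
      exact ((hzd.div_const z1).clog h1).const_mul (p:ℂ)
    · exact mul_ne_zero h4 (exp_ne_zero _)
  have hnormH : ∀ τ, z τ ≠ 0 → ‖H τ‖ = ‖w τ‖ * ‖z τ‖ ^ p / ‖z1‖ ^ p := by
    intro τ hτ
    have h0 : 0 < ‖z τ‖ := norm_pos_iff.2 hτ
    rw [hH]
    simp only
    rw [norm_mul, Complex.norm_exp, re_ofReal_mul, Complex.log_re, norm_div, mul_div_assoc,
      ← Real.div_rpow h0.le hz1n.le, Real.rpow_def_of_pos (div_pos h0 hz1n), mul_comm p]
  have hH0 : H 0 = w1 := by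
    simp only [hH]
    rw [hw0, hz0, div_self hz1, Complex.log_one, mul_zero, Complex.exp_zero, mul_one]
  have hmax : IsLocalMax (norm ∘ fun τ => (H τ)⁻¹) 0 := by
    filter_upwards [e2, e3, e4, e5] with τ h2 h3 h4 h5
    simp only [Function.comp]
    rw [norm_inv, norm_inv, hH0]
    apply inv_anti₀ (norm_pos_iff.2 hw1)
    rw [hnormH τ h5, le_div_iff₀ (Real.rpow_pos_of_pos hz1n p)]
    exact hmin (z τ, w τ) (hSm τ h3) h2
  have hconst := eventually_eq_of_isLocalMax_norm hd hmax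
  obtain ⟨ρ', hρ', hall⟩ := Metric.eventually_nhds_iff.1 (hconst.and (e3.and e1))
  -- the curve contains a piece of the spiral
  have hnear : ∀ᶠ y in 𝓝 z1, OnCurve f g (y, w1 * exp (-(p * Complex.log (y / z1)))) := by
    filter_upwards [hsurj ρ' hρ'] with y hy
    obtain ⟨τ, hτ, hyz⟩ := hy
    obtain ⟨h1, h2, h3⟩ := hall (mem_ball.1 hτ)
    have h4 : H τ = w1 := by
      have := inv_injective h1
      rw [this, hH0]
    have h5 : w τ = w1 * exp (-(p * Complex.log (y / z1))) := by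
      rw [← h4, hH]
      simp only
      rw [hyz, mul_assoc, ← Complex.exp_add, add_neg_cancel, Complex.exp_zero, mul_one]
    have h6 := hS _ (hSm τ h2)
    rw [hyz, h5] at h6
    exact h6
  have hζ : ∀ᶠ ζ in 𝓝 (0:ℂ), OnCurve f g (z1 * exp ζ, w1 * exp (-(p * ζ))) := by
    have hcont : Tendsto (fun ζ : ℂ => z1 * exp ζ) (𝓝 0) (𝓝 z1) := by
      have : Continuous (fun ζ : ℂ => z1 * exp ζ) := continuous_const.mul Complex.continuous_exp
      have := this.tendsto 0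
      simpa using this
    have him : ∀ᶠ ζ in 𝓝 (0:ℂ), -Real.pi < ζ.im ∧ ζ.im ≤ Real.pi := by
      have h1 : ∀ᶠ ζ in 𝓝 (0:ℂ), -Real.pi < ζ.im :=
        (Complex.continuous_im.tendsto 0).eventually_const_lt (by simp [Real.pi_pos])
      have h2 : ∀ᶠ ζ in 𝓝 (0:ℂ), ζ.im < Real.pi :=
        (Complex.continuous_im.tendsto 0).eventually_lt_const (by simp [Real.pi_pos])
      filter_upwards [h1, h2] with ζ h3 h4
      exact ⟨h3, h4.le⟩
    filter_upwards [hcont.eventually hnear, him] with ζ h1 h2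
    rw [mul_div_cancel_left₀ _ hz1, Complex.log_exp h2.1 h2.2] at h1
    exact h1
  apply mono_of_spiral hf hg hf0 hg0 hord hz1 hw1 hp
  -- identity theorem
  set L : ℂ → ℂ := fun ζ => (z1 * exp ζ) * deriv f (z1 * exp ζ) * g (w1 * exp (-(p * ζ))) with hL
  set Rr : ℂ → ℂ := fun ζ => (w1 * exp (-(p * ζ))) * deriv g (w1 * exp (-(p * ζ))) *
    f (z1 * exp ζ) with hRr
  have hzd : Differentiable ℂ (fun ζ : ℂ => z1 * exp ζ) :=
    Complex.differentiable_exp.const_mul z1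
  have hwd : Differentiable ℂ (fun ζ : ℂ => w1 * exp (-(p * ζ))) :=
    (Complex.differentiable_exp.comp ((differentiable_id.const_mul (p:ℂ)).neg)).const_mul w1
  have hdf : Differentiable ℂ (deriv f) := fun x => (hf.analyticAt x).deriv.differentiableAt
  have hdg : Differentiable ℂ (deriv g) := fun x => (hg.analyticAt x).deriv.differentiableAt
  have hLd : Differentiable ℂ L := (hzd.mul (hdf.comp hzd)).mul (hg.comp hwd)
  have hRd : Differentiable ℂ Rr := (hwd.mul (hdg.comp hwd)).mul (hf.comp hzd)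
  have hLa : AnalyticOnNhd ℂ L univ := fun x _ => hLd.analyticAt x
  have hRa : AnalyticOnNhd ℂ Rr univ := fun x _ => hRd.analyticAt x
  have := hLa.eq_of_eventuallyEq hRa (z₀ := 0) hζ
  intro ζ
  exact congrFun this ζ

end Pool.Agent.Q72.SP
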