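import Pool.Agent.Q72.SP.Loc

set_option autoImplicit false

open Filter Topology Set Complex

namespace Pool.Agent.Q72.SP

/-- `z f'(z) / f(z)`. -/
noncomputable def phi (f : ℂ → ℂ) (z : ℂ) : ℂ := z * deriv f z / f z

theorem phi_analyticAt {f : ℂ → ℂ} (hf : Differentiable ℂ f) {z : ℂ} (hz : f z ≠ 0) :
    AnalyticAt ℂ (phi f) z := by
  have h1 : AnalyticAt ℂ f z := hf.analyticAt z
  exact (analyticAt_id.mul h1.deriv).div h1 hz

/-- the model at a zero of `f` -/
theorem pole_model {f : ℂ → ℂ} (hf : Differentiable ℂ f) (hf0 : ¬ ∀ z, f z = 0) {z1 : ℂ}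
    (hz1 : z1 ≠ 0) (hfz : f z1 = 0) :
    ∃ α : ℂ → ℂ, AnalyticAt ℂ α z1 ∧ α z1 = 0 ∧ (¬ ∀ᶠ z in 𝓝 z1, α z = 0) ∧
      ∀ᶠ z in 𝓝[≠] z1, f z ≠ 0 ∧ α z ≠ 0 ∧ phi f z = (α z)⁻¹ := by
  have h1 : AnalyticAt ℂ f z1 := hf.analyticAt z1
  have hne : ¬ ∀ᶠ z in 𝓝 z1, f z = 0 := by
    intro h
    apply hf0
    intro z
    have h2 : AnalyticOnNhd ℂ f univ := fun z _ => hf.analyticAt z
    have := h2.eqOn_zero_of_preconnected_of_eventuallyEq_zero isPreconnected_univ (mem_univ z1) h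
    exact this (mem_univ z)
  obtain ⟨q, h, hh, hh0, hq⟩ := (h1.exists_eventuallyEq_pow_smul_nonzero_iff).2 hne
  have hq0 : 0 < q := by
    rcases Nat.eq_zero_or_pos q with h | h
    · exfalso
      subst h
      have := hq.self_of_nhds
      simp at this
      rw [hfz] at this
      exact hh0 this.symm
    · exact h
  have hqC : (q : ℂ) ≠ 0 := by exact_mod_cast hq0.ne'
  set D : ℂ → ℂ := fun z => z * (q * h z + (z - z1) * deriv h z) with hD
  have hDa : AnalyticAt ℂ D z1 :=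
    analyticAt_id.mul ((analyticAt_const.mul hh).add
      ((analyticAt_id.sub analyticAt_const).mul hh.deriv))
  have hD1 : D z1 ≠ 0 := by
    simp only [hD, sub_self, zero_mul, add_zero]
    exact mul_ne_zero hz1 (mul_ne_zero hqC hh0)
  refine ⟨fun z => (z - z1) * h z / D z, ?_, ?_, ?_, ?_⟩
  · exact ((analyticAt_id.sub analyticAt_const).mul hh).div hDa hD1
  · simp
  · intro hcon
    have e1 : ∀ᶠ z in 𝓝[≠] z1, (z - z1) * h z / D z = 0 := hcon.filter_mono nhdsWithin_le_nhds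
    have e2 : ∀ᶠ z in 𝓝[≠] z1, h z ≠ 0 :=
      (hh.continuousAt.eventually_ne hh0).filter_mono nhdsWithin_le_nhds
    have e3 : ∀ᶠ z in 𝓝[≠] z1, D z ≠ 0 :=
      (hDa.continuousAt.eventually_ne hD1).filter_mono nhdsWithin_le_nhds
    obtain ⟨z, hz, hz2, hz3, hz4⟩ := (e1.and (e2.and (e3.and self_mem_nhdsWithin))).exists
    rw [div_eq_zero_iff] at hz
    rcases hz with h5 | h5
    · rcases mul_eq_zero.1 h5 with h6 | h6
      · exact hz4 (sub_eq_zero.1 h6)
      · exact hz2 h6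
    · exact hz3 h5
  · have e0 : ∀ᶠ z in 𝓝 z1, deriv f z = q * (z - z1) ^ (q - 1) * h z + (z - z1) ^ q * deriv h z := by
      filter_upwards [hq.eventually_nhds, hh.eventually_analyticAt] with z hz hhz
      have h5 : f =ᶠ[𝓝 z] fun z => (z - z1) ^ q * h z := by
        filter_upwards [hz] with y hy
        rw [hy, smul_eq_mul]
      rw [h5.deriv_eq]
      have h6 : HasDerivAt (fun z : ℂ => (z - z1) ^ q) (q * (z - z1) ^ (q - 1)) z := by
        have := ((hasDerivAt_id z).sub_const z1).fun_pow q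
        simpa using this
      exact (h6.mul hhz.differentiableAt.hasDerivAt).deriv
    have e2 : ∀ᶠ z in 𝓝[≠] z1, h z ≠ 0 :=
      (hh.continuousAt.eventually_ne hh0).filter_mono nhdsWithin_le_nhds
    have e3 : ∀ᶠ z in 𝓝[≠] z1, D z ≠ 0 :=
      (hDa.continuousAt.eventually_ne hD1).filter_mono nhdsWithin_le_nhds
    filter_upwards [e0.filter_mono nhdsWithin_le_nhds, hq.filter_mono nhdsWithin_le_nhds, e2, e3,
      self_mem_nhdsWithin] with z h0 h1 h2 h3 h4
    have h5 : z - z1 ≠ 0 := sub_ne_zero.2 h4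
    refine ⟨?_, ?_, ?_⟩
    · rw [h1, smul_eq_mul]
      exact mul_ne_zero (pow_ne_zero _ h5) h2
    · exact div_ne_zero (mul_ne_zero h5 h2) h3
    · rw [phi, h0, h1, smul_eq_mul, inv_div]
      rw [div_eq_div_iff (mul_ne_zero (pow_ne_zero _ h5) h2) (mul_ne_zero h5 h2)]
      simp only [hD]
      obtain ⟨r, rfl⟩ : ∃ r, q = r + 1 := ⟨q - 1, by omega⟩
      simp only [Nat.add_sub_cancel]
      ring

/-- `phi f` is not locally constant, unless `z f' = a f` everywhere -/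
theorem const_model {f : ℂ → ℂ} (hf : Differentiable ℂ f)
    (hc : ∀ a : ℂ, ¬ ∀ z, z * deriv f z = a * f z) {z1 : ℂ} (hfz : f z1 ≠ 0) (a : ℂ) :
    ¬ ∀ᶠ z in 𝓝 z1, phi f z - a = 0 := by
  intro h
  apply hc a
  have h1 : AnalyticOnNhd ℂ (fun z => z * deriv f z) univ := fun z _ =>
    analyticAt_id.mul (hf.analyticAt z).deriv
  have h2 : AnalyticOnNhd ℂ (fun z => a * f z) univ := fun z _ =>
    analyticAt_const.mul (hf.analyticAt z)
  have h3 : (fun z => z * deriv f z) =ᶠ[𝓝 z1] fun z => a * f z := by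
    filter_upwards [h, hf.continuous.continuousAt.eventually_ne hfz] with z hz hz2
    rw [sub_eq_zero, phi, div_eq_iff hz2] at hz
    exact hz
  have := h1.eq_of_eventuallyEq h2 h3
  intro z
  exact congrFun this z

theorem model {f g : ℂ → ℂ} (hf : Differentiable ℂ f) (hg : Differentiable ℂ g)
    (hf0 : ¬ ∀ z, f z = 0) (hg0 : ¬ ∀ z, g z = 0)
    (hcf : ∀ a : ℂ, ¬ ∀ z, z * deriv f z = a * f z) (hcg : ∀ a : ℂ, ¬ ∀ z, z * deriv g z = a * g z)
    {z1 w1 : ℂ} (hz1 : z1 ≠ 0) (hw1 : w1 ≠ 0)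
    (hcl : ∃ᶠ p : ℂ × ℂ in 𝓝 (z1, w1), f p.1 ≠ 0 ∧ g p.2 ≠ 0 ∧ phi f p.1 = phi g p.2) :
    ∃ (α β μ : ℂ → ℂ), Function.Injective μ ∧ AnalyticAt ℂ α z1 ∧ α z1 = 0 ∧ (¬ ∀ᶠ z in 𝓝 z1, α z = 0) ∧
      AnalyticAt ℂ β w1 ∧ β w1 = 0 ∧ (¬ ∀ᶠ w in 𝓝 w1, β w = 0) ∧
      (∀ b : ℂ, ∀ᶠ x in 𝓝[≠] (0:ℂ), μ x ≠ b) ∧
      (∀ᶠ z in 𝓝[≠] z1, f z ≠ 0 ∧ phi f z = μ (α z)) ∧
      (∀ᶠ w in 𝓝[≠] w1, g w ≠ 0 ∧ phi g w = μ (β w)) ∧
      (∀ᶠ p : ℂ × ℂ in 𝓝 (z1, w1), f p.1 ≠ 0 → g p.2 ≠ 0 → phi f p.1 = phi g p.2 →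
        α p.1 = β p.2) := by
  by_cases hfz : f z1 = 0
  · obtain ⟨α, hα, hα0, hαn, hαp⟩ := pole_model hf hf0 hz1 hfz
    have hα' : ∀ᶠ z in 𝓝 z1, f z ≠ 0 → α z ≠ 0 ∧ phi f z = (α z)⁻¹ := by
      rw [eventually_nhdsWithin_iff] at hαp
      filter_upwards [hαp] with z hz hfz2
      have : z ≠ z1 := by
        rintro rfl
        exact hfz2 hfz
      exact (hz this).2
    by_cases hgw : g w1 = 0
    · obtain ⟨β, hβ, hβ0, hβn, hβp⟩ := pole_model hg hg0 hw1 hgw
      have hβ' : ∀ᶠ w in 𝓝 w1, g w ≠ 0 → β w ≠ 0 ∧ phi g w = (β w)⁻¹ := by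
        rw [eventually_nhdsWithin_iff] at hβp
        filter_upwards [hβp] with z hz hfz2
        have : z ≠ w1 := by
          rintro rfl
          exact hfz2 hgw
        exact (hz this).2
      refine ⟨α, β, fun x => x⁻¹, inv_injective, hα, hα0, hαn, hβ, hβ0, hβn, ?_, ?_, ?_, ?_⟩
      · intro b
        rcases eq_or_ne b 0 with rfl | hb
        · filter_upwards [self_mem_nhdsWithin] with x hx
          exact inv_ne_zero hx
        · have : ∀ᶠ x : ℂ in 𝓝 0, x ≠ b⁻¹ := continuousAt_id.eventually_ne (inv_ne_zero hb).symm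
          filter_upwards [this.filter_mono nhdsWithin_le_nhds] with x hx h
          apply hx
          rw [← h, inv_inv]
      · filter_upwards [hαp] with z hz
        exact ⟨hz.1, hz.2.2⟩
      · filter_upwards [hβp] with z hz
        exact ⟨hz.1, hz.2.2⟩
      · rw [nhds_prod_eq]
        filter_upwards [hα'.prod_mk hβ'] with p hp h1 h2 h3
        rw [(hp.1 h1).2, (hp.2 h2).2] at h3
        exact inv_injective h3
    · exfalso
      have hc1 : ContinuousAt (fun p : ℂ × ℂ => α p.1 * phi g p.2) (z1, w1) := by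
        apply ContinuousAt.mul
        · exact hα.continuousAt.comp_of_eq continuousAt_fst rfl
        · exact (phi_analyticAt hg hgw).continuousAt.comp_of_eq continuousAt_snd rfl
      have hc2 : ∀ᶠ p : ℂ × ℂ in 𝓝 (z1, w1), α p.1 * phi g p.2 ≠ 1 := by
        apply hc1.eventually_ne
        simp [hα0]
      have hc3 : ∀ᶠ p : ℂ × ℂ in 𝓝 (z1, w1), f p.1 ≠ 0 → α p.1 ≠ 0 ∧ phi f p.1 = (α p.1)⁻¹ :=
        (continuous_fst.tendsto ((z1, w1) : ℂ × ℂ)).eventually hα'
      obtain ⟨p, ⟨h1, h2, h3⟩, h4, h5⟩ := (hcl.and_eventually (hc2.and hc3)).exists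
      obtain ⟨h6, h7⟩ := h5 h1
      apply h4
      rw [← h3, h7, mul_inv_cancel₀ h6]
  · by_cases hgw : g w1 = 0
    · exfalso
      obtain ⟨β, hβ, hβ0, hβn, hβp⟩ := pole_model hg hg0 hw1 hgw
      have hβ' : ∀ᶠ w in 𝓝 w1, g w ≠ 0 → β w ≠ 0 ∧ phi g w = (β w)⁻¹ := by
        rw [eventually_nhdsWithin_iff] at hβp
        filter_upwards [hβp] with z hz hfz2
        have : z ≠ w1 := by
          rintro rfl
          exact hfz2 hgw
        exact (hz this).2
      have hc1 : ContinuousAt (fun p : ℂ × ℂ => β p.2 * phi f p.1) (z1, w1) := by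
        apply ContinuousAt.mul
        · exact hβ.continuousAt.comp_of_eq continuousAt_snd rfl
        · exact (phi_analyticAt hf hfz).continuousAt.comp_of_eq continuousAt_fst rfl
      have hc2 : ∀ᶠ p : ℂ × ℂ in 𝓝 (z1, w1), β p.2 * phi f p.1 ≠ 1 := by
        apply hc1.eventually_ne
        simp [hβ0]
      have hc3 : ∀ᶠ p : ℂ × ℂ in 𝓝 (z1, w1), g p.2 ≠ 0 → β p.2 ≠ 0 ∧ phi g p.2 = (β p.2)⁻¹ :=
        (continuous_snd.tendsto ((z1, w1) : ℂ × ℂ)).eventually hβ'
      obtain ⟨p, ⟨h1, h2, h3⟩, h4, h5⟩ := (hcl.and_eventually (hc2.and hc3)).exists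
      obtain ⟨h6, h7⟩ := h5 h2
      apply h4
      rw [h3, h7, mul_inv_cancel₀ h6]
    · -- both nonzero
      have hcf1 : ContinuousAt (fun p : ℂ × ℂ => phi f p.1 - phi g p.2) (z1, w1) := by
        apply ContinuousAt.sub
        · exact (phi_analyticAt hf hfz).continuousAt.comp_of_eq continuousAt_fst rfl
        · exact (phi_analyticAt hg hgw).continuousAt.comp_of_eq continuousAt_snd rfl
      have heq : phi f z1 = phi g w1 := by
        by_contra hne
        have : ∀ᶠ p : ℂ × ℂ in 𝓝 (z1, w1), phi f p.1 - phi g p.2 ≠ 0 :=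
          hcf1.eventually_ne (sub_ne_zero.2 hne)
        obtain ⟨p, ⟨_, _, h3⟩, h4⟩ := (hcl.and_eventually this).exists
        exact h4 (sub_eq_zero.2 h3)
      refine ⟨fun z => phi f z - phi f z1, fun w => phi g w - phi f z1, fun x => x + phi f z1,
        add_left_injective _, (phi_analyticAt hf hfz).sub analyticAt_const, sub_self _, const_model hf hcf hfz _,
        (phi_analyticAt hg hgw).sub analyticAt_const, by simp [heq],
        const_model hg hcg hgw _, ?_, ?_, ?_, ?_⟩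
      · intro b
        rcases eq_or_ne b (phi f z1) with rfl | hb
        · filter_upwards [self_mem_nhdsWithin] with x hx h
          apply hx
          simpa using h
        · have : ∀ᶠ x : ℂ in 𝓝 0, x + phi f z1 ≠ b := by
            apply (continuous_id.add continuous_const).continuousAt.eventually_ne
            simp [hb.symm]
          exact this.filter_mono nhdsWithin_le_nhds
      · filter_upwards [(hf.continuous.continuousAt.eventually_ne hfz).filter_mono
          nhdsWithin_le_nhds] with z hz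
        exact ⟨hz, by ring⟩
      · filter_upwards [(hg.continuous.continuousAt.eventually_ne hgw).filter_mono
          nhdsWithin_le_nhds] with z hz
        exact ⟨hz, by ring⟩
      · filter_upwards with p _ _ h3
        simp only [h3]

end Pool.Agent.Q72.SP
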